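import Mathlib
import Pool.Agent.W406.HV.Hyp

/-! # Moments of Frobenius for almost all double covers of projective spaces of even dimension -/

namespace Pool.Agent.Results.MP_32ceeb_nt.DoubleCoverMoments

open Finset Pool.Agent.W406.HV

/-- `Ix r D` is the set of exponents of the monomials of degree `D` in `r` variables, so that
`a : Ix r D → ℤ` is a form `F` of degree `D`; `trD a p` is `(#Y(F_p) - #P^n(F_p)) / p ^ (n / 2)` for
the double cover `Y : w ^ 2 = F` of `P ^ n` branched along `F = 0`, where `D = 2 e`;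
`mom m` is `(m - 1)!!` for even `m` and `0` for odd `m`. -/
theorem result (n e : ℕ) (_ : Even n) (hn : 1 ≤ n) (ε : ℝ) (hε : 0 < ε) :
    ∃ c C : ℝ, 0 < c ∧ ∀ (N : ℕ) (b : Ix (n + 1) (2 * e) → ℤ) (y : ℝ), 1 ≤ y →
      ({a : Ix (n + 1) (2 * e) → ℤ | (∀ α, |a α - b α| ≤ N) ∧
        ∃ x : ℕ, y ≤ x ∧ (x : ℝ) ≤ (N : ℝ) ^ c ∧ ∃ m : ℕ, m < 2 * e ∧
        (x : ℝ) ^ (max (1 / 2) ((m : ℝ) / ((2 * e : ℕ) : ℝ)) + ε) <
          |∑ p ∈ (Icc 1 x).filter (fun p => p.Prime ∧ p ≠ 2), (trD a p ^ m - mom m)|}.ncard : ℝ) ≤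
        C * y ^ (-ε) * (2 * N + 1) ^ (Fintype.card (Ix (n + 1) (2 * e))) :=
  dbl_main n e hn ε hε

end Pool.Agent.Results.MP_32ceeb_nt.DoubleCoverMoments
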