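import Pool.Agent.W529.ST.Cov

/-!
# Sato-Tate in even degree for most quadratic twists of a double cover of projective space

`F` is a number field (`ℚ` in the problem), `n` even and `G ∈ 𝓞_F[x_0, …, x_n]` homogeneous of even degree
`2e` with smooth zero locus in projective space.  For `d ∈ 𝓞_F` nonzero let `X_d` be the double cover
`d w² = G(x)` of `ℙ^n` (for `n = 2`, `2e = 6` a K3 surface of degree two), smooth and projective of
dimension `n`.  Its cohomology is that of `ℙ^n` plus a primitive part in the even degree `n`: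
`H^n(X_d)(n/2) = ℚ_l ⊕ V ⊗ χ_d`, where `χ_d` is the character of `F(√d)/F`.  So the trace of `Frob_v^m`
on `V ⊗ χ_d` is `(#X_d(k_m) - #ℙ^n(k_m)) / q^{mn/2}`, where `k_m` is the extension of degree `m` of the
residue field with `q` elements.  The traces for `m ≤ M` determine the characteristic polynomial of
Frobenius as soon as `M ≥ dim V`.
-/

set_option autoImplicit false

namespace Pool.Agent.Results.MP_32ceeb_nt.DoubleCovers

open NumberField IsDedekindDomain Filter Topology

/-- Number of the pairs `(x, w)`, `x ≠ 0`, with `d w² = G(x)` and coordinates in the extension of degree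
`m` of the finite field `k`, that is, the field of the elements of the algebraic closure of `k` that are
fixed by the `m`-th power of the Frobenius of `k`.  The group of the nonzero elements `λ` of this field
acts freely on them by `(λ x, λ^e w)`, if `G` is homogeneous of degree `2e`, and the orbits are the
points of the double cover over this field. -/
noncomputable def coneCount (k : Type) [Field k] {n : ℕ} (G : MvPolynomial (Fin (n + 1)) k) (d : k)
    (m : ℕ) : ℕ :=
  Nat.card {P : (Fin (n + 1) → AlgebraicClosure k) × AlgebraicClosure k //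
    (∀ i, P.1 i ^ (Nat.card k ^ m) = P.1 i) ∧ P.2 ^ (Nat.card k ^ m) = P.2 ∧ P.1 ≠ 0 ∧
    algebraMap k (AlgebraicClosure k) d * P.2 ^ 2 = MvPolynomial.aeval P.1 G}

section
variable {F : Type} [Field F] [NumberField F] {n : ℕ}

/-- The normalised trace of the `m`-th power of the Frobenius at `v` on the primitive part of
`H^n(X_d)`: the number of points of `X_d` minus the number of points of `ℙ^n` over the extension of
degree `m` of the residue field, divided by `q^{mn/2}`, `q = N(v)`. -/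
noncomputable def trace (v : HeightOneSpectrum (𝓞 F)) (G : MvPolynomial (Fin (n + 1)) (𝓞 F))
    (d : 𝓞 F) (m : ℕ) : ℝ :=
  haveI : v.asIdeal.IsMaximal := v.isMaximal
  letI : Field (𝓞 F ⧸ v.asIdeal) := Ideal.Quotient.field v.asIdeal
  ((coneCount (𝓞 F ⧸ v.asIdeal) (MvPolynomial.map (Ideal.Quotient.mk v.asIdeal) G)
      (Ideal.Quotient.mk v.asIdeal d) m : ℝ) / ((Nat.card (𝓞 F ⧸ v.asIdeal) : ℝ) ^ m - 1) -
    ∑ j ∈ Finset.range (n + 1), ((Nat.card (𝓞 F ⧸ v.asIdeal) : ℝ) ^ m) ^ j) /
    (Nat.card (𝓞 F ⧸ v.asIdeal) : ℝ) ^ (((m * n : ℕ) : ℝ) / 2)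

/-- The class of Frobenius at `v`: the normalised traces of the powers `m = 1, …, M`. -/
noncomputable def frobClass (G : MvPolynomial (Fin (n + 1)) (𝓞 F)) (M : ℕ) (d : 𝓞 F)
    (v : HeightOneSpectrum (𝓞 F)) (m : Fin M) : ℝ := trace v G d (m + 1)

/-- The class of `-x`, if `s` is the class of `x`. -/
def neg {M : ℕ} (s : Fin M → ℝ) (m : Fin M) : ℝ := (-1) ^ ((m : ℕ) + 1) * s m

/-- Mean of `φ` over the primes of `F` of norm at most `N`. -/
noncomputable def mean (φ : HeightOneSpectrum (𝓞 F) → ℝ) (N : ℕ) : ℝ :=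
  (∑ᶠ v : {v : HeightOneSpectrum (𝓞 F) // Ideal.absNorm v.asIdeal ≤ N}, φ v.1) /
    (Nat.card {v : HeightOneSpectrum (𝓞 F) // Ideal.absNorm v.asIdeal ≤ N} : ℝ)

/-- Test functions: values in `[-1, 1]`, Lipschitz constant `1` for the maximum norm, zero outside the
box `[-R, R]^M`.  (By Deligne's theorem all traces at good primes are in `[-dim V, dim V]`, so that for
`R > dim V` the last condition is no restriction on the values at the classes, up to a factor two.) -/
def Test (M R : ℕ) (Φ : (Fin M → ℝ) → ℝ) : Prop :=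
  LipschitzWith 1 Φ ∧ (∀ s, |Φ s| ≤ 1) ∧ ∀ s : Fin M → ℝ, (∃ m, (R : ℝ) < |s m|) → Φ s = 0

/-- The twist `X_d` is exceptional at the scale `N`, for the precision `1/k`: for some test function
`Φ` the mean over the classes of `X_d` differs by at least `1/k` from the mean of `(Φ(s) + Φ(-s))/2`
over the classes `s` of `X_1`. -/
def Exceptional (G : MvPolynomial (Fin (n + 1)) (𝓞 F)) (M R k N : ℕ) (d : 𝓞 F) : Prop :=
  ∃ Φ : (Fin M → ℝ) → ℝ, Test M R Φ ∧ 1 / (k : ℝ) ≤
    |mean (fun v => Φ (frobClass G M d v)) N -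
      mean (fun v => (Φ (frobClass G M 1 v) + Φ (neg (frobClass G M 1 v))) / 2) N|

/-- `X_d` deviates at the scale `N` by at least `1/k` from the law with integral `I`. -/
def Deviates (G : MvPolynomial (Fin (n + 1)) (𝓞 F)) (M R : ℕ) (I : ((Fin M → ℝ) → ℝ) → ℝ)
    (k N : ℕ) (d : 𝓞 F) : Prop :=
  ∃ Φ : (Fin M → ℝ) → ℝ, Test M R Φ ∧ 1 / (k : ℝ) ≤
    |mean (fun v => Φ (frobClass G M d v)) N - I Φ|

theorem trace_twist (G : MvPolynomial (Fin (n + 1)) (𝓞 F)) {d : 𝓞 F}
    {v : HeightOneSpectrum (𝓞 F)} (h2d : 2 * d ∉ v.asIdeal) {m : ℕ} (hm : m ≠ 0) :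
    trace v G d m = Pool.Agent.W529.ST.ch d v ^ m * trace v G 1 m := by
  have h1 := Pool.Agent.W529.ST.tV_twist v G h2d hm
  have hfin : Finite (𝓞 F ⧸ v.asIdeal) := Ring.HasFiniteQuotients.finiteQuotient v.ne_bot
  have hnt : Nontrivial (𝓞 F ⧸ v.asIdeal) := Ideal.Quotient.nontrivial_iff.2 v.isPrime.ne_top
  have hq : (1 : ℝ) < (Nat.card (𝓞 F ⧸ v.asIdeal) : ℝ) := by
    exact_mod_cast Finite.one_lt_card
  have hQ : (1 : ℝ) < (Nat.card (𝓞 F ⧸ v.asIdeal) : ℝ) ^ m := one_lt_pow₀ hq hm
  have h2 : ∀ e : 𝓞 F, trace v G e m = Pool.Agent.W529.ST.tV v G e m /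
      ((Nat.card (𝓞 F ⧸ v.asIdeal) : ℝ) ^ m - 1) /
      (Nat.card (𝓞 F ⧸ v.asIdeal) : ℝ) ^ (((m * n : ℕ) : ℝ) / 2) := by
    intro e
    unfold trace Pool.Agent.W529.ST.tV
    rw [geom_sum_eq hQ.ne', ← sub_div]
    rfl
  rw [h2, h2, h1]
  ring

end

open Classical in
/-- **Sato-Tate in even degree for most quadratic twists.**  Let `F` be a number field, `X_d` the double
cover `d w² = G(x)` of `ℙ^n`, `M` the number of traces considered, `R ≥ 0`, `k ≥ 1`, and `T` a finite set
of nonzero elements of `𝓞_F` in different classes modulo squares of `F`.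

1. At every large scale `N` at most `16 ((4 R k + 1)^M + 1) k²` of the twists `X_d`, `d ∈ T`, are
exceptional: for all others the classes of `X_d` at the primes of norm at most `N` are distributed, up
to `1/k`, like the classes `± s(v)` of `X_1` with random signs.

2. If the classes of `X_1` are equidistributed for a law, with integral `I`, that is invariant under
`x ↦ -x`, then at every large scale `N` at most `64 ((8 R k + 1)^M + 1) k²` of the twists `X_d`, `d ∈ T`,
deviate from this law by `1/k` or more. -/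
theorem result (F : Type) [Field F] [NumberField F] (n : ℕ)
    (G : MvPolynomial (Fin (n + 1)) (𝓞 F)) (M R : ℕ) (T : Finset (𝓞 F)) (hT : ∀ d ∈ T, d ≠ 0)
    (hT' : ∀ d ∈ T, ∀ e ∈ T, d ≠ e → ¬ IsSquare ((d * e : 𝓞 F) : F)) (k : ℕ) (hk : 1 ≤ k) :
    (∀ᶠ N : ℕ in atTop, (T.filter (Exceptional G M R k N)).card ≤
      16 * ((4 * R * k + 1) ^ M + 1) * k ^ 2) ∧
    ∀ I : ((Fin M → ℝ) → ℝ) → ℝ, (∀ Φ, Test M R Φ → I (fun s => Φ (neg s)) = I Φ) →
      (∀ Φ, Test M R Φ → Tendsto (mean fun v => Φ (frobClass G M 1 v)) atTop (𝓝 (I Φ))) →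
      ∀ᶠ N : ℕ in atTop, (T.filter (Deviates G M R I k N)).card ≤
        64 * ((8 * R * k + 1) ^ M + 1) * k ^ 2 := by
  have hs : ∀ d ∈ T, ∀ v : HeightOneSpectrum (𝓞 F), 2 * d ∉ v.asIdeal →
      frobClass G M d v = fun m : Fin M =>
        Pool.Agent.W529.ST.ch d v ^ ((m : ℕ) + 1) * frobClass G M 1 v m := by
    intro d _ v h2d
    funext m
    exact trace_twist G h2d (Nat.succ_ne_zero _)
  have hTe : ∀ Φ, Test M R Φ ↔ Pool.Agent.W529.ST.TestB M R Φ := by
    intro Φ
    unfold Test Pool.Agent.W529.ST.TestB Pool.Agent.W529.ST.Test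
    tauto
  constructor
  · filter_upwards [Pool.Agent.W529.ST.count_B M R T hT hT' k hk (frobClass G M) hs] with N hN
    refine (Finset.card_le_card fun d hd => ?_).trans hN
    obtain ⟨hdT, Φ, hΦ, hge⟩ := Finset.mem_filter.1 hd
    exact Finset.mem_filter.2 ⟨hdT, Φ, (hTe Φ).1 hΦ, hge⟩
  · intro I hI hlim
    filter_upwards [Pool.Agent.W529.ST.count_BI M R T hT hT' k hk (frobClass G M) hs I
      (fun Φ hΦ => hI Φ ((hTe Φ).2 hΦ)) (fun Φ hΦ => hlim Φ ((hTe Φ).2 hΦ))] with N hN
    have e1 : 64 * ((8 * R * k + 1) ^ M + 1) * k ^ 2 =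
        16 * ((4 * R * (2 * k) + 1) ^ M + 1) * (2 * k) ^ 2 := by ring
    rw [e1]
    refine (Finset.card_le_card fun d hd => ?_).trans hN
    obtain ⟨hdT, Φ, hΦ, hge⟩ := Finset.mem_filter.1 hd
    exact Finset.mem_filter.2 ⟨hdT, Φ, (hTe Φ).1 hΦ, hge⟩

end Pool.Agent.Results.MP_32ceeb_nt.DoubleCovers
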